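import Mathlib

/-!
# The LMO invariant separates the integral homology spheres obtained by surgery on the Borromean rings

The linking numbers of the Borromean rings are `0`, so the integral homology spheres obtained from them
by Dehn surgery are the manifolds `M(a, b, c)` with the surgery coefficients `-1/a`, `-1/b`, `-1/c`,
where `a`, `b`, `c` are integers (the coefficient `-1/0 = ∞` means that the component is removed).
Equivalently, they are the results of surgery with coefficient `-1/c` on the double twist knots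
`K(a, b)`, i.e. on the two-bridge knots of genus one.

The symmetries of the Borromean rings permute the components, so `M(a, b, c)` depends only on the
unordered triple; and `M(a, b, 0) = S^3`.

**The Ohtsuki series.** For `q = e ^ h` let `omega p n` be the power series in `h` which describe `p`
full twists (Masbaum):
`omega p n = ∑_k (-1)^k q^(k(k+1)p + k(k-1)/2) (1 - q^(2k+1)) (q)_n / ((q)_(n+k+1) (q)_(n-k))`,
defined here by `omega 0 n = 1` for `n = 0` and `0` otherwise, and by the full twist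
`omega (p + 1) n = ∑_(k ≤ n) [n, k] q^(k(k+1)) omega p k` and its inverse. Habiro's formula for the
Ohtsuki series (the quantum `sl_2` invariants at `q = e ^ h`) is
`τ(M(a, b, c)) = ∑_n q^n (1 - q^(n+1)) ⋯ (1 - q^(2n+1)) / (1 - q) omega a n * omega b n * omega c n`.
For example, `omega 1 n = 1` and `omega (-1) n = (-1)^n q^(-n(n+3)/2)`, which gives the series of Le for
`M(1, 1, 1)` and `M(-1, -1, 1)`, the Brieskorn spheres `Σ(2, 3, 5)`, `Σ(2, 3, 7)` (up to orientation).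

**The result.** The coefficients of `h`, `h²`, `h³` are
`-6 e₃`, `-6 e₃ e₁ + 60 e₃²` and `-4 e₃ (e₁² + 2 e₂) + 160 e₃² e₁ - 840 e₃³`, where `e₁`, `e₂`, `e₃`
are the elementary symmetric polynomials of `a`, `b`, `c`. So they determine the unordered triple, or
the manifold is `S^3`. Hence the LMO invariant separates these manifolds, already in degree at most `3`.
The bound `3` is the best possible: the manifolds `M(k, 6 k, 6 k)` and `M(2 k, 2 k, 9 k)` have the same
LMO invariant in degree at most `2`.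

`LMOData` contains the LMO invariant and the known theorems which are used.
-/

set_option autoImplicit false

namespace Pool.Agent.Results.MP_27a3bb_gt.BorromeanSurgeries

open Finset PowerSeries

/-- `q ^ t` for an integer `t`, where `q = e ^ h`, as a power series in `h` (in Lean the variable `h` is
written `X`). -/
noncomputable def qpow (t : ℤ) : ℚ⟦X⟧ := PowerSeries.mk fun n => (t : ℚ) ^ n / (n.factorial : ℚ)

/-- The Gaussian binomial coefficient `[n, k]` in `q`. -/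
noncomputable def qbinom : ℕ → ℕ → ℚ⟦X⟧
  | _, 0 => 1
  | 0, _ + 1 => 0
  | n + 1, k + 1 => qbinom n k + qpow ((k : ℤ) + 1) * qbinom n (k + 1)

/-- A full twist: `(twist x) n = ∑_(k ≤ n) [n, k] q^(k(k+1)) x k`. -/
noncomputable def twist (x : ℕ → ℚ⟦X⟧) (n : ℕ) : ℚ⟦X⟧ :=
  ∑ k ∈ range (n + 1), qbinom n k * qpow ((k : ℤ) * (k + 1)) * x k

/-- The inverse of `twist` (by the inversion formula for Gaussian binomial coefficients):
`(untwist x) n = q^(-n(n+1)) ∑_(k ≤ n) (-1)^(n-k) q^((n-k)(n-k-1)/2) [n, k] x k`. -/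
noncomputable def untwist (x : ℕ → ℚ⟦X⟧) (n : ℕ) : ℚ⟦X⟧ :=
  qpow (-((n : ℤ) * (n + 1))) * ∑ k ∈ range (n + 1),
    (-1) ^ (n - k) * qpow (((n - k) * (n - k - 1) / 2 : ℕ) : ℤ) * qbinom n k * x k

/-- `omega p`: the sequence of power series for `p` full twists. -/
noncomputable def omega : ℤ → ℕ → ℚ⟦X⟧
  | Int.ofNat p => twist^[p] fun n => if n = 0 then 1 else 0
  | Int.negSucc p => untwist^[p + 1] fun n => if n = 0 then 1 else 0

/-- `q^n (1 - q^(n+1)) ⋯ (1 - q^(2n+1)) / (1 - q)`; the quotient of the first factor by `1 - q` is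
`1 + q + ⋯ + q^n`. -/
noncomputable def cyc (n : ℕ) : ℚ⟦X⟧ :=
  qpow n * (∑ i ∈ range (n + 1), qpow i) * ∏ j ∈ Icc (n + 2) (2 * n + 1), (1 - qpow j)

/-- The Ohtsuki series of `M(a, b, c)` according to Habiro's formula: the sum over all `n` of
`cyc n * omega a n * omega b n * omega c n`. As `cyc n` is divisible by `h^n`, the terms with `n > m`
do not contribute to the coefficient of `h^m`. -/
noncomputable def ohtsuki (a b c : ℤ) : ℚ⟦X⟧ :=
  PowerSeries.mk fun m => ∑ n ∈ range (m + 1),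
    coeff m (cyc n * omega a n * omega b n * omega c n)

/-- The LMO invariant of integral homology spheres and the Ohtsuki series, with the known theorems that
are used. -/
structure LMOData where
  /-- integral homology 3-spheres, up to homeomorphisms which preserve the orientation -/
  Mfd : Type
  /-- the 3-sphere -/
  S3 : Mfd
  /-- the manifold obtained by surgery on the Borromean rings with the surgery coefficients `-1/a`,
  `-1/b`, `-1/c` -/
  M : ℤ → ℤ → ℤ → Mfd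
  /-- the spaces spanned by the Jacobi diagrams of given degree without univalent vertices -/
  A : ℕ → Type
  /-- the parts of given degree of the LMO invariant -/
  Z : Mfd → (d : ℕ) → A d
  /-- the Ohtsuki series, as a power series in `h`, where `q = e ^ h` -/
  tau : Mfd → ℚ⟦X⟧
  /-- the components of the Borromean rings can be permuted by isotopies: the first two -/
  swap₁ : ∀ a b c, M a b c = M b a c
  /-- the last two -/
  swap₂ : ∀ a b c, M a b c = M a c b
  /-- without one of the components the Borromean rings are an unlink -/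
  fill : ∀ a b, M a b 0 = S3
  /-- Habiro's formula -/
  habiro : ∀ a b c, tau (M a b c) = ohtsuki a b c
  /-- the Ohtsuki series in degree at most `m` is determined by the LMO invariant in degree at most `m`
  (Ohtsuki) -/
  weight : ∀ N N' m, (∀ d ≤ m, Z N d = Z N' d) → ∀ d ≤ m, coeff d (tau N) = coeff d (tau N')
  /-- the LMO invariant in degree at most `2` is determined by the Ohtsuki series in degree at most `2`
  (the connected diagrams of degree `1` and of degree `2` span spaces of dimension one, on which the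
  weight system of `sl_2` is injective) -/
  low : ∀ N N', (∀ d ≤ 2, coeff d (tau N) = coeff d (tau N')) → ∀ d ≤ 2, Z N d = Z N' d

section coeffs

lemma c0 (f g : ℚ⟦X⟧) : coeff 0 (f * g) = coeff 0 f * coeff 0 g := by
  simp [PowerSeries.coeff_mul]

lemma c1 (f g : ℚ⟦X⟧) : coeff 1 (f * g) = coeff 0 f * coeff 1 g + coeff 1 f * coeff 0 g := by
  rw [PowerSeries.coeff_mul, Finset.Nat.sum_antidiagonal_eq_sum_range_succ
    (fun i j => coeff i f * coeff j g)]
  simp [Finset.sum_range_succ]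

lemma c2 (f g : ℚ⟦X⟧) : coeff 2 (f * g) = coeff 0 f * coeff 2 g + coeff 1 f * coeff 1 g +
    coeff 2 f * coeff 0 g := by
  rw [PowerSeries.coeff_mul, Finset.Nat.sum_antidiagonal_eq_sum_range_succ
    (fun i j => coeff i f * coeff j g)]
  simp [Finset.sum_range_succ]

lemma c3 (f g : ℚ⟦X⟧) : coeff 3 (f * g) = coeff 0 f * coeff 3 g + coeff 1 f * coeff 2 g +
    coeff 2 f * coeff 1 g + coeff 3 f * coeff 0 g := by
  rw [PowerSeries.coeff_mul, Finset.Nat.sum_antidiagonal_eq_sum_range_succ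
    (fun i j => coeff i f * coeff j g)]
  simp [Finset.sum_range_succ]

lemma q0 (t : ℤ) : coeff 0 (qpow t) = 1 := by simp [qpow]
lemma q1 (t : ℤ) : coeff 1 (qpow t) = t := by simp [qpow]
lemma q2 (t : ℤ) : coeff 2 (qpow t) = (t : ℚ) ^ 2 / 2 := by simp [qpow, Nat.factorial]
lemma q3 (t : ℤ) : coeff 3 (qpow t) = (t : ℚ) ^ 3 / 6 := by simp [qpow, Nat.factorial]

lemma o0 : coeff 0 (1 : ℚ⟦X⟧) = 1 := by simp
lemma o1 : coeff 1 (1 : ℚ⟦X⟧) = 0 := by simp [PowerSeries.coeff_one]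
lemma o2 : coeff 2 (1 : ℚ⟦X⟧) = 0 := by simp [PowerSeries.coeff_one]
lemma o3 : coeff 3 (1 : ℚ⟦X⟧) = 0 := by simp [PowerSeries.coeff_one]

end coeffs

lemma tw0 (x : ℕ → ℚ⟦X⟧) : twist x 0 = qpow 0 * x 0 := by
  simp [twist, qbinom]

lemma tw1 (x : ℕ → ℚ⟦X⟧) : twist x 1 = qpow 0 * x 0 + qpow 2 * x 1 := by
  simp [twist, qbinom, Finset.sum_range_succ]

lemma qb11 : qbinom 1 1 = 1 := by simp [qbinom]
lemma qb21 : qbinom 2 1 = 1 + qpow 1 := by simp [qbinom]
lemma qb22 : qbinom 2 2 = 1 := by simp [qbinom]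
lemma qb31 : qbinom 3 1 = 1 + qpow 1 * (1 + qpow 1) := by
  rw [qbinom, show (0 + 1 : ℕ) = 1 from rfl, qb21]; simp [qbinom]
lemma qb32 : qbinom 3 2 = 1 + qpow 1 + qpow 2 := by
  rw [qbinom, show (1 + 1 : ℕ) = 2 from rfl, qb21, qb22]; norm_num
lemma qb33 : qbinom 3 3 = 1 := by simp [qbinom]
lemma qbn0 (n : ℕ) : qbinom n 0 = 1 := by cases n <;> simp [qbinom]

lemma tw2 (x : ℕ → ℚ⟦X⟧) : twist x 2 = qpow 0 * x 0 + (1 + qpow 1) * qpow 2 * x 1 +
    qpow 6 * x 2 := by
  simp only [twist, Finset.sum_range_succ, Finset.sum_range_zero, qbn0, qb21, qb22]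
  norm_num

lemma tw3 (x : ℕ → ℚ⟦X⟧) : twist x 3 = qpow 0 * x 0 + (1 + qpow 1 * (1 + qpow 1)) * qpow 2 * x 1 +
    (1 + qpow 1 + qpow 2) * qpow 6 * x 2 + qpow 12 * x 3 := by
  simp only [twist, Finset.sum_range_succ, Finset.sum_range_zero, qbn0, qb31, qb32, qb33]
  norm_num

lemma un0 (x : ℕ → ℚ⟦X⟧) : untwist x 0 = qpow 0 * (qpow 0 * x 0) := by
  simp [untwist, qbinom]

lemma un1 (x : ℕ → ℚ⟦X⟧) : untwist x 1 = qpow (-2) * (-(qpow 0 * x 0) + qpow 0 * x 1) := by
  simp only [untwist, Finset.sum_range_succ, Finset.sum_range_zero, qbn0, qb11]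
  norm_num

lemma un2 (x : ℕ → ℚ⟦X⟧) : untwist x 2 = qpow (-6) * (qpow 1 * x 0 - qpow 0 * (1 + qpow 1) * x 1 +
    qpow 0 * x 2) := by
  simp only [untwist, Finset.sum_range_succ, Finset.sum_range_zero, qbn0, qb21, qb22]
  norm_num
  ring_nf
  simp

lemma un3 (x : ℕ → ℚ⟦X⟧) : untwist x 3 = qpow (-12) * (-(qpow 3 * x 0) +
    qpow 1 * (1 + qpow 1 * (1 + qpow 1)) * x 1 -
    qpow 0 * (1 + qpow 1 + qpow 2) * x 2 + qpow 0 * x 3) := by
  simp only [untwist, Finset.sum_range_succ, Finset.sum_range_zero, qbn0, qb31, qb32, qb33]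
  norm_num
  ring_nf
  simp

/-- The values and first coefficients of `omega p`. -/
def Val (p : ℤ) (x : ℕ → ℚ⟦X⟧) : Prop :=
  (coeff 0 (x 0) = 1 ∧ coeff 1 (x 0) = 0 ∧ coeff 2 (x 0) = 0 ∧ coeff 3 (x 0) = 0) ∧
  (coeff 0 (x 1) = p ∧ coeff 1 (x 1) = (p : ℚ) ^ 2 - p ∧
    coeff 2 (x 1) = (2 * (p : ℚ) ^ 3 - 3 * p ^ 2 + p) / 3) ∧
  (coeff 0 (x 2) = (p : ℚ) ^ 2 ∧ coeff 1 (x 2) = (16 * (p : ℚ) ^ 3 - 15 * p ^ 2 - p) / 6) ∧
  coeff 0 (x 3) = (p : ℚ) ^ 3

lemma val_zero : Val 0 (fun n => if n = 0 then 1 else 0) := by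
  refine ⟨?_, ?_, ?_, ?_⟩ <;> simp [PowerSeries.coeff_one]

lemma val_twist (p : ℤ) (x : ℕ → ℚ⟦X⟧) (h : Val p x) : Val (p + 1) (twist x) := by
  obtain ⟨⟨h1, h2, h3, h4⟩, ⟨h5, h6, h7⟩, ⟨h8, h9⟩, h10⟩ := h
  refine ⟨⟨?_, ?_, ?_, ?_⟩, ⟨?_, ?_, ?_⟩, ⟨?_, ?_⟩, ?_⟩ <;>
  simp only [tw0, tw1, tw2, tw3, map_add, c0, c1, c2, c3, q0, q1, q2, q3, o0, o1,
    h1, h2, h3, h4, h5, h6, h7, h8, h9, h10] <;> push_cast <;> ring

lemma val_untwist (p : ℤ) (x : ℕ → ℚ⟦X⟧) (h : Val p x) : Val (p - 1) (untwist x) := by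
  obtain ⟨⟨h1, h2, h3, h4⟩, ⟨h5, h6, h7⟩, ⟨h8, h9⟩, h10⟩ := h
  refine ⟨⟨?_, ?_, ?_, ?_⟩, ⟨?_, ?_, ?_⟩, ⟨?_, ?_⟩, ?_⟩ <;>
  simp only [un0, un1, un2, un3, map_add, map_sub, map_neg, c0, c1, c2, c3, q0, q1, q2, q3,
    o0, o1, h1, h2, h3, h4, h5, h6, h7, h8, h9, h10] <;> push_cast <;> ring

lemma val_omega (p : ℤ) : Val p (omega p) := by
  rcases p with n | n
  · show Val _ (twist^[n] _)
    induction n with
    | zero => exact val_zero
    | succ n ih =>
      rw [Function.iterate_succ_apply']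
      have := val_twist _ _ ih
      simpa using this
  · show Val _ (untwist^[n + 1] _)
    induction n with
    | zero => exact val_untwist 0 _ val_zero
    | succ n ih =>
      rw [Function.iterate_succ_apply']
      have := val_untwist _ _ ih
      have e : Int.negSucc (n + 1) = Int.negSucc n - 1 := by
        simp only [Int.negSucc_eq]; push_cast; ring
      rw [e]
      exact this

lemma cyc0 : cyc 0 = qpow 0 * qpow 0 := by
  simp [cyc]

lemma cyc1 : cyc 1 = qpow 1 * (qpow 0 + qpow 1) * (1 - qpow 3) := by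
  simp only [cyc, Finset.sum_range_succ, Finset.sum_range_zero]
  rw [show Icc (1 + 2) (2 * 1 + 1) = {3} from rfl]
  simp

lemma cyc2 : cyc 2 = qpow 2 * (qpow 0 + qpow 1 + qpow 2) * ((1 - qpow 4) * (1 - qpow 5)) := by
  simp only [cyc, Finset.sum_range_succ, Finset.sum_range_zero]
  rw [show Icc (2 + 2) (2 * 2 + 1) = {4, 5} from rfl]
  simp

lemma cyc3 : cyc 3 = qpow 3 * (qpow 0 + qpow 1 + qpow 2 + qpow 3) *
    ((1 - qpow 5) * ((1 - qpow 6) * (1 - qpow 7))) := by
  simp only [cyc, Finset.sum_range_succ, Finset.sum_range_zero]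
  rw [show Icc (3 + 2) (2 * 3 + 1) = {5, 6, 7} from rfl]
  simp

lemma coeff_zero_oht (a b c : ℤ) : coeff 0 (ohtsuki a b c) = 1 := by
  obtain ⟨⟨a1, a2, a3, a4⟩, ⟨a5, a6, a7⟩, ⟨a8, a9⟩, a10⟩ := val_omega a
  obtain ⟨⟨b1, b2, b3, b4⟩, ⟨b5, b6, b7⟩, ⟨b8, b9⟩, b10⟩ := val_omega b
  obtain ⟨⟨d1, d2, d3, d4⟩, ⟨d5, d6, d7⟩, ⟨d8, d9⟩, d10⟩ := val_omega c
  rw [ohtsuki, PowerSeries.coeff_mk]
  simp only [Finset.sum_range_succ, Finset.sum_range_zero, cyc0, c0, q0, a1, b1, d1]
  norm_num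

lemma coeff_one_oht (a b c : ℤ) : coeff 1 (ohtsuki a b c) = -6 * ((a : ℚ) * b * c) := by
  obtain ⟨⟨a1, a2, a3, a4⟩, ⟨a5, a6, a7⟩, ⟨a8, a9⟩, a10⟩ := val_omega a
  obtain ⟨⟨b1, b2, b3, b4⟩, ⟨b5, b6, b7⟩, ⟨b8, b9⟩, b10⟩ := val_omega b
  obtain ⟨⟨d1, d2, d3, d4⟩, ⟨d5, d6, d7⟩, ⟨d8, d9⟩, d10⟩ := val_omega c
  rw [ohtsuki, PowerSeries.coeff_mk]
  simp only [Finset.sum_range_succ, Finset.sum_range_zero, cyc0, cyc1, map_add, map_sub,
    c0, c1, q0, q1, o0, o1, a1, a2, a5, a6, b1, b2, b5, b6, d1, d2, d5, d6]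
  push_cast
  ring

lemma coeff_two_oht (a b c : ℤ) : coeff 2 (ohtsuki a b c) =
    -6 * ((a : ℚ) * b * c) * (a + b + c) + 60 * ((a : ℚ) * b * c) ^ 2 := by
  obtain ⟨⟨a1, a2, a3, a4⟩, ⟨a5, a6, a7⟩, ⟨a8, a9⟩, a10⟩ := val_omega a
  obtain ⟨⟨b1, b2, b3, b4⟩, ⟨b5, b6, b7⟩, ⟨b8, b9⟩, b10⟩ := val_omega b
  obtain ⟨⟨d1, d2, d3, d4⟩, ⟨d5, d6, d7⟩, ⟨d8, d9⟩, d10⟩ := val_omega c
  rw [ohtsuki, PowerSeries.coeff_mk]
  simp only [Finset.sum_range_succ, Finset.sum_range_zero, cyc0, cyc1, cyc2, map_add, map_sub,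
    c0, c1, c2, q0, q1, q2, o0, o1, o2, a1, a2, a3, a5, a6, a7, a8, a9, b1, b2, b3, b5, b6, b7,
    b8, b9, d1, d2, d3, d5, d6, d7, d8, d9]
  push_cast
  ring

lemma coeff_three_oht (a b c : ℤ) : coeff 3 (ohtsuki a b c) =
    -4 * ((a : ℚ) * b * c) * ((a + b + c) ^ 2 + 2 * (a * b + b * c + c * a)) +
      160 * ((a : ℚ) * b * c) ^ 2 * (a + b + c) - 840 * ((a : ℚ) * b * c) ^ 3 := by
  obtain ⟨⟨a1, a2, a3, a4⟩, ⟨a5, a6, a7⟩, ⟨a8, a9⟩, a10⟩ := val_omega a
  obtain ⟨⟨b1, b2, b3, b4⟩, ⟨b5, b6, b7⟩, ⟨b8, b9⟩, b10⟩ := val_omega b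
  obtain ⟨⟨d1, d2, d3, d4⟩, ⟨d5, d6, d7⟩, ⟨d8, d9⟩, d10⟩ := val_omega c
  have k10 : coeff 0 (cyc 1) = 0 := by simp only [cyc1, c0, map_sub, q0, o0]; norm_num
  have k20 : coeff 0 (cyc 2) = 0 := by simp only [cyc2, c0, map_sub, q0, o0]; norm_num
  have k21 : coeff 1 (cyc 2) = 0 := by
    simp only [cyc2, c0, c1, map_sub, map_add, q0, q1, o0, o1]; norm_num
  have k30 : coeff 0 (cyc 3) = 0 := by simp only [cyc3, c0, map_sub, q0, o0]; norm_num
  have k31 : coeff 1 (cyc 3) = 0 := by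
    simp only [cyc3, c0, c1, map_sub, map_add, q0, q1, o0, o1]; norm_num
  have k32 : coeff 2 (cyc 3) = 0 := by
    simp only [cyc3, c0, c1, c2, map_sub, map_add, q0, q1, q2, o0, o1, o2]; norm_num
  have k11 : coeff 1 (cyc 1) = -6 := by
    simp only [cyc1, c0, c1, map_sub, map_add, q0, q1, o0, o1]; norm_num
  have k12 : coeff 2 (cyc 1) = -18 := by
    simp only [cyc1, c0, c1, c2, map_sub, map_add, q0, q1, q2, o0, o1, o2]; norm_num
  have k13 : coeff 3 (cyc 1) = -30 := by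
    simp only [cyc1, c0, c1, c2, c3, map_sub, map_add, q0, q1, q2, q3, o0, o1, o2, o3]; norm_num
  have k22 : coeff 2 (cyc 2) = 60 := by
    simp only [cyc2, c0, c1, c2, map_sub, map_add, q0, q1, q2, o0, o1, o2]; norm_num
  have k23 : coeff 3 (cyc 2) = 450 := by
    simp only [cyc2, c0, c1, c2, c3, map_sub, map_add, q0, q1, q2, q3, o0, o1, o2, o3]; norm_num
  have k33 : coeff 3 (cyc 3) = -840 := by
    simp only [cyc3, c0, c1, c2, c3, map_sub, map_add, q0, q1, q2, q3, o0, o1, o2, o3]; norm_num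
  have k00 : coeff 0 (cyc 0) = 1 := by simp only [cyc0, c0, q0]; norm_num
  have k01 : coeff 1 (cyc 0) = 0 := by simp only [cyc0, c1, q0, q1]; norm_num
  have k02 : coeff 2 (cyc 0) = 0 := by simp only [cyc0, c2, q0, q1, q2]; norm_num
  have k03 : coeff 3 (cyc 0) = 0 := by simp only [cyc0, c3, q0, q1, q2, q3]; norm_num
  rw [ohtsuki, PowerSeries.coeff_mk]
  simp only [Finset.sum_range_succ, Finset.sum_range_zero, c0, c1, c2, c3, k00, k01, k02, k03,
    k10, k11, k12, k13, k20, k21, k22, k23, k30, k31, k32, k33, a1, a2, a3, a4, a5, a6, a7, a8,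
    a9, a10, b1, b2, b3, b4, b5, b6, b7, b8, b9, b10, d1, d2, d3, d4, d5, d6, d7, d8, d9, d10]
  ring

/-- The terms with `n > m` do not contribute to the coefficient of `h ^ m`: `cyc n` is divisible by
`h ^ n`. So `ohtsuki a b c` is the sum of the series over all `n`. -/
theorem dvd_cyc (n : ℕ) : (X : ℚ⟦X⟧) ^ n ∣ cyc n := by
  rw [cyc]
  refine Dvd.dvd.mul_left ?_ _
  have h1 : ∀ j ∈ Icc (n + 2) (2 * n + 1), (X : ℚ⟦X⟧) ∣ 1 - qpow j := by
    intro j _
    rw [PowerSeries.X_dvd_iff, map_sub, PowerSeries.constantCoeff_one]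
    simp [qpow]
  have h2 := Finset.prod_dvd_prod_of_dvd (fun _ => (X : ℚ⟦X⟧)) _ h1
  rw [Finset.prod_const, Nat.card_Icc] at h2
  refine dvd_trans (pow_dvd_pow _ ?_) h2
  omega

theorem coeff_ohtsuki (a b c : ℤ) (m N : ℕ) (h : m < N) :
    coeff m (ohtsuki a b c) =
      coeff m (∑ n ∈ range N, cyc n * omega a n * omega b n * omega c n) := by
  rw [ohtsuki, PowerSeries.coeff_mk, map_sum]
  refine Finset.sum_subset (fun n hn => ?_) fun n hn hn' => ?_
  · simp only [Finset.mem_range] at hn ⊢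
    omega
  · have hd : (X : ℚ⟦X⟧) ^ n ∣ cyc n * omega a n * omega b n * omega c n :=
      (((dvd_cyc n).mul_right _).mul_right _).mul_right _
    refine PowerSeries.X_pow_dvd_iff.mp hd m ?_
    simp only [Finset.mem_range, not_lt] at hn'
    omega

lemma perm2 {b c y z : ℤ} (h1 : y + z = b + c) (h2 : y * z = b * c) :
    (y = b ∧ z = c) ∨ (y = c ∧ z = b) := by
  have h : (y - b) * (y - c) = 0 := by linear_combination y * h1 - h2
  rcases mul_eq_zero.mp h with h | h
  · left; constructor <;> linarith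
  · right; constructor <;> linarith

lemma perm3 {a b c x y z : ℤ} (h1 : x + y + z = a + b + c)
    (h2 : x * y + y * z + z * x = a * b + b * c + c * a) (h3 : x * y * z = a * b * c) :
    (x = a ∧ ((y = b ∧ z = c) ∨ (y = c ∧ z = b))) ∨
    (x = b ∧ ((y = a ∧ z = c) ∨ (y = c ∧ z = a))) ∨
    (x = c ∧ ((y = a ∧ z = b) ∨ (y = b ∧ z = a))) := by
  have h : (x - a) * ((x - b) * (x - c)) = 0 := by
    linear_combination x ^ 2 * h1 - x * h2 + h3
  rcases mul_eq_zero.mp h with h | h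
  · have e : x = a := by linarith
    subst e
    refine Or.inl ⟨rfl, perm2 (by linarith) ?_⟩
    linear_combination h2 - x * (h1)
  rcases mul_eq_zero.mp h with h | h
  · have e : x = b := by linarith
    subst e
    refine Or.inr (Or.inl ⟨rfl, perm2 (by linarith) ?_⟩)
    linear_combination h2 - x * (h1)
  · have e : x = c := by linarith
    subst e
    refine Or.inr (Or.inr ⟨rfl, perm2 (by linarith) ?_⟩)
    linear_combination h2 - x * (h1)

/-- The coefficients of `h`, `h²`, `h³` determine the unordered triple. -/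
lemma separate {a b c x y z : ℤ}
    (h : ∀ m ≤ 3, coeff m (ohtsuki x y z) = coeff m (ohtsuki a b c)) :
    (x * y * z = 0 ∧ a * b * c = 0) ∨
    (x * y * z ≠ 0 ∧ x + y + z = a + b + c ∧
      x * y + y * z + z * x = a * b + b * c + c * a ∧ x * y * z = a * b * c) := by
  have h1 := h 1 (by norm_num)
  have h2 := h 2 (by norm_num)
  have h3 := h 3 le_rfl
  rw [coeff_one_oht, coeff_one_oht] at h1
  rw [coeff_two_oht, coeff_two_oht] at h2
  rw [coeff_three_oht, coeff_three_oht] at h3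
  have e : (x : ℚ) * y * z = a * b * c := by linarith
  rw [e] at h2 h3
  have eZ : x * y * z = a * b * c := by exact_mod_cast e
  by_cases h0 : a * b * c = 0
  · exact Or.inl ⟨eZ.trans h0, h0⟩
  · right
    have h0' : (a : ℚ) * b * c ≠ 0 := by exact_mod_cast h0
    have e1 : (x : ℚ) + y + z = a + b + c := by
      have : ((a : ℚ) * b * c) * ((x + y + z) - (a + b + c)) = 0 := by linarith
      rcases mul_eq_zero.mp this with h | h
      · exact absurd h h0'
      · linarith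
    rw [e1] at h3
    have e2 : (x : ℚ) * y + y * z + z * x = a * b + b * c + c * a := by
      have : ((a : ℚ) * b * c) * ((x * y + y * z + z * x) - (a * b + b * c + c * a)) = 0 := by
        linarith
      rcases mul_eq_zero.mp this with h | h
      · exact absurd h h0'
      · linarith
    refine ⟨?_, by exact_mod_cast e1, by exact_mod_cast e2, eZ⟩
    rw [eZ]; exact h0

lemma same (L : LMOData) {a b c x y z : ℤ}
    (h : ∀ d ≤ 3, L.Z (L.M x y z) d = L.Z (L.M a b c) d) : L.M x y z = L.M a b c := by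
  have hz : ∀ {a b c : ℤ}, a * b * c = 0 → L.M a b c = L.S3 := by
    intro a b c h0
    rcases mul_eq_zero.mp h0 with h0 | h0
    · rcases mul_eq_zero.mp h0 with h0 | h0
      · rw [h0, L.swap₁, L.swap₂, L.fill]
      · rw [h0, L.swap₂, L.fill]
    · rw [h0, L.fill]
  have h' : ∀ m ≤ 3, coeff m (ohtsuki x y z) = coeff m (ohtsuki a b c) := by
    intro m hm
    have := L.weight _ _ 3 h m hm
    rwa [L.habiro, L.habiro] at this
  rcases separate h' with ⟨h1, h2⟩ | ⟨-, h1, h2, h3⟩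
  · rw [hz h1, hz h2]
  · rcases perm3 h1 h2 h3 with ⟨rfl, h | h⟩ | ⟨rfl, h | h⟩ | ⟨rfl, h | h⟩ <;>
      obtain ⟨rfl, rfl⟩ := h
    · rfl
    · exact L.swap₂ _ _ _
    · exact L.swap₁ _ _ _
    · rw [L.swap₂, L.swap₁]
    · rw [L.swap₁, L.swap₂]
    · rw [L.swap₁, L.swap₂, L.swap₁]

/-- (1) `ohtsuki a b c` is the sum of Habiro's series. (2) Its first coefficients. (3) The coefficients
of `h`, `h²`, `h³` determine the unordered triple `{a, b, c}` (unless one of the numbers is `0`, when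
they are all `0`). (4) The LMO invariant in degree at most `3` separates the integral homology spheres
`M(a, b, c)` obtained by surgery on the Borromean rings. (5) Degree at most `2` is not enough: for
`k ≠ 0` the manifolds `M(k, 6 k, 6 k)` and `M(2 k, 2 k, 9 k)` are different, and their LMO invariants
agree in degree at most `2`. -/
theorem result :
    (∀ (a b c : ℤ) (m N : ℕ), m < N → coeff m (ohtsuki a b c) =
      coeff m (∑ n ∈ range N, cyc n * omega a n * omega b n * omega c n)) ∧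
    (∀ a b c : ℤ, coeff 0 (ohtsuki a b c) = 1 ∧
      coeff 1 (ohtsuki a b c) = -6 * ((a : ℚ) * b * c) ∧
      coeff 2 (ohtsuki a b c) =
        -6 * ((a : ℚ) * b * c) * (a + b + c) + 60 * ((a : ℚ) * b * c) ^ 2 ∧
      coeff 3 (ohtsuki a b c) =
        -4 * ((a : ℚ) * b * c) * ((a + b + c) ^ 2 + 2 * (a * b + b * c + c * a)) +
          160 * ((a : ℚ) * b * c) ^ 2 * (a + b + c) - 840 * ((a : ℚ) * b * c) ^ 3) ∧
    (∀ a b c a' b' c' : ℤ,
      (∀ m ≤ 3, coeff m (ohtsuki a b c) = coeff m (ohtsuki a' b' c')) →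
      (a * b * c = 0 ∧ a' * b' * c' = 0) ∨ ({a, b, c} : Multiset ℤ) = {a', b', c'}) ∧
    (∀ (L : LMOData) (a b c a' b' c' : ℤ),
      (∀ d ≤ 3, L.Z (L.M a b c) d = L.Z (L.M a' b' c') d) → L.M a b c = L.M a' b' c') ∧
    ∀ (L : LMOData) (k : ℤ), k ≠ 0 →
      L.M k (6 * k) (6 * k) ≠ L.M (2 * k) (2 * k) (9 * k) ∧
      ∀ d ≤ 2, L.Z (L.M k (6 * k) (6 * k)) d = L.Z (L.M (2 * k) (2 * k) (9 * k)) d := by
  refine ⟨coeff_ohtsuki, fun a b c => ⟨coeff_zero_oht a b c, coeff_one_oht a b c,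
    coeff_two_oht a b c, coeff_three_oht a b c⟩, fun a b c a' b' c' h => ?_,
    fun L a b c a' b' c' h => same L h, fun L k hk => ⟨fun h => ?_, L.low _ _ fun d hd => ?_⟩⟩
  · rcases separate h with h | ⟨-, h1, h2, h3⟩
    · exact Or.inl h
    · right
      rcases perm3 h1 h2 h3 with ⟨rfl, h | h⟩ | ⟨rfl, h | h⟩ | ⟨rfl, h | h⟩ <;>
        obtain ⟨rfl, rfl⟩ := h <;>
        simp only [Multiset.insert_eq_cons, ← Multiset.singleton_add] <;> abel
  · have h3 := congrArg (fun N => coeff 3 (L.tau N)) h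
    simp only [L.habiro, coeff_three_oht] at h3
    have hk' : (k : ℚ) ≠ 0 := by exact_mod_cast hk
    have : (k : ℚ) ^ 5 = 0 := by push_cast at h3; linarith
    exact hk' (pow_eq_zero_iff (by norm_num) |>.mp this)
  · rw [L.habiro, L.habiro]
    interval_cases d
    · rw [coeff_zero_oht, coeff_zero_oht]
    · rw [coeff_one_oht, coeff_one_oht]; push_cast; ring
    · rw [coeff_two_oht, coeff_two_oht]; push_cast; ring

end Pool.Agent.Results.MP_27a3bb_gt.BorromeanSurgeries
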