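import Pool.Agent.K3h45.LM.M8

/-!
# Integral homology spheres that are not separated by the images of the LMO invariant under the
# weight systems of simple Lie algebras

**The manifolds.** Let `K₁`, `K₂` be knots from the family `Inserted` (the knot `8_17` and knots
obtained from a three-strand braid for it by inserting the powers `± 2640` of generators), let
`rK₂` be `K₂` with the reversed orientation, and `f = 1` or `-1`. Let `M` and `N` be the manifolds
obtained by surgery with framing `f` on `K₁ # K₂` and on `K₁ # rK₂`. They are integral homology
spheres. For every `n`, the connected sums of `n` copies of `M` or `N` with different numbers of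
copies of `N` have non-isomorphic fundamental groups, so there are `n + 1` different ones.

**The invariants.** All quantum `G` invariants and all quantum `PG` invariants of these connected
sums agree, for all simply connected simple compact Lie groups `G` and for all `r`. They are defined in
`Pool/Agent/W616/QDefs.lean` (simple modules over the quantum groups, braidings, quantum traces,
the surgery formula).

**The LMO invariant.** `LMOData` contains the LMO invariants of the manifolds, the Kontsevich
integrals of the knots, and two known theorems:

* The LMO invariant of the manifold obtained by surgery on `K₁ # K₂` (and of a connected sum of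
  such manifolds) is determined by the framings and the Kontsevich integrals of `K₁` and `K₂` (Le,
  Murakami, Ohtsuki).
* The image of the LMO invariant of an integral homology sphere under the weight system of a
  simple Lie algebra is its perturbative `PG` invariant, which is determined by the quantum `PG`
  invariants (Ohtsuki, Le; Kuriya, Le, Ohtsuki).

So no weight system of a simple Lie algebra separates the LMO invariants of these
manifolds; and if the LMO invariant separates them, then the Kontsevich integral distinguishes the knot
`K₂` (for instance `8_17`) from the knot with the reversed orientation: a positive answer to the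
question implies that finite type invariants of knots detect the orientation.

**The proof.** The quantum invariants do not see the reversal of a summand (starting files,
`MP_76ff03_gt`, where this was used for framings divisible by 3 and a solvable group of order 168). For
the framings `± 1` the fundamental groups are perfect, and the numbers of their homomorphisms to
the Mathieu group of degree 11 are compared. Let `N x y` be the number of homomorphisms of the knot
group with meridian `x` and longitude `y`. Reversal replaces `N x y` by `N x⁻¹ y⁻¹`, and the difference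
of the numbers of homomorphisms for `M` and `N` is half the sum, over all `x` and `y`, of
`α(x, y) α(x, y⁻¹ x ^ (-f))`, where `α(x, y) = N x y - N x⁻¹ y⁻¹`. For `8_17` it is `720 * 121`: only
the elements `x` of order 11 contribute, the elements of order 8 cancel.
-/

set_option autoImplicit false

namespace Pool.Agent.Results.MP_27a3bb_gt.LieAlgebraPart

open Pool.Agent.W616

/-- The braid word `σ_1^-1 σ_2 σ_1^-1 σ_2 σ_1^-2 σ_2^2` on three strands; its closure is the knot
`8_17`. -/
def word817 : Braid 2 :=
  [(0, false), (1, true), (0, false), (1, true), (0, false), (0, false), (1, true), (1, true)]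

/-- `Inserted w`: the braid word `w` on three strands is obtained from `word817` by inserting, any
number of times and at any places, the 2640-th power of a generator or of its inverse. -/
inductive Inserted : Braid 2 → Prop
  | base : Inserted word817
  | insert (u v : Braid 2) (g : Fin 2 × Bool) (h : Inserted (u ++ v)) :
      Inserted (u ++ List.replicate 2640 g ++ v)

/-- For braid words `w₁`, `w₂` on three strands with the closures `K₁`, `K₂`, the closure of this braid
word on five strands is `K₁ # K₂` if `c = false` and `K₁ # rK₂` if `c = true` (the closure of the word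
read backwards is `K₂` with the reversed orientation). -/
def sumWord (w₁ w₂ : Braid 2) (c : Bool) : Braid 4 :=
  left3 w₁ ++ right3 (if c then w₂.reverse else w₂)

/-- The fundamental group of the connected sum, over `i`, of the 3-manifolds obtained by surgery with
framing `f` on `K₁ # K₂` (if `c i = false`) or on `K₁ # rK₂` (if `c i = true`): a free product. -/
abbrev PiOneSum (w₁ w₂ : Braid 2) (f : ℤ) {n : ℕ} (c : Fin n → Bool) : Type :=
  Monoid.CoprodI fun i => pi1 (sumWord w₁ w₂ (c i)) 2 f

/-- The quantum `G` invariant of the same connected sum (`τ_r^G(S^3) = 1`, so it is multiplicative). -/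
noncomputable def tauGSum (Δ : CartanDatum) (r : ℕ) (w₁ w₂ : Braid 2) (f : ℤ) {n : ℕ}
    (c : Fin n → Bool) : ℂ := ∏ i, tauG Δ r (sumWord w₁ w₂ (c i)) f

/-- The quantum `PG` invariant of the same connected sum. -/
noncomputable def tauPGSum (Δ : CartanDatum) (r : ℕ) (w₁ w₂ : Braid 2) (f : ℤ) {n : ℕ}
    (c : Fin n → Bool) : ℂ := ∏ i, tauPG Δ r (sumWord w₁ w₂ (c i)) f

/-- The LMO invariants of the integral homology spheres above, with two known theorems. -/
structure LMOData where
  /-- the algebra of Jacobi diagrams without univalent vertices -/
  A : Type
  /-- where the Kontsevich integral has its values -/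
  B : Type
  /-- where the perturbative invariants have their values -/
  P : Type
  /-- the Kontsevich integral of the knot which is the closure of a braid word -/
  kon : Braid 2 → B
  /-- the LMO invariant of the connected sum, over `i`, of the manifolds obtained by surgery with
  framing `f` on `K₁ # K₂` (if `c i = false`) or on `K₁ # rK₂` (if `c i = true`) -/
  Z : Braid 2 → Braid 2 → ℤ → (n : ℕ) → (Fin n → Bool) → A
  /-- the weight system of a simple Lie algebra -/
  W : CartanDatum → A → P
  /-- the LMO invariant is determined by the Kontsevich integrals of the summands of the knots -/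
  surgery : ∃ S : ℤ → (n : ℕ) → (Fin n → B × B) → A, ∀ w₁ w₂ f n (c : Fin n → Bool),
    Inserted w₁ → Inserted w₂ → f = 1 ∨ f = -1 →
    Z w₁ w₂ f n c = S f n fun i => (kon w₁, kon (if c i then w₂.reverse else w₂))
  /-- the perturbative `PG` invariant is determined by the quantum `PG` invariants -/
  perturbative : ∃ F : CartanDatum → (ℕ → ℂ) → P, ∀ Δ w₁ w₂ f n (c : Fin n → Bool),
    Inserted w₁ → Inserted w₂ → f = 1 ∨ f = -1 →
    W Δ (Z w₁ w₂ f n c) = F Δ fun r => tauPGSum Δ r w₁ w₂ f c

theorem ins_of {w : Braid 2} (h : Inserted w) : Pool.Agent.K3h45.LM.InsE 1320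
    Pool.Agent.K3h45.LM.wordM w := by
  induction h with
  | base => exact Pool.Agent.K3h45.LM.InsE.refl
  | insert u v g _ ih => exact Pool.Agent.K3h45.LM.InsE.insert u v g ih

/-- Let `K₁`, `K₂` be the closures of two words from the infinite set `Inserted`, and let `f` be `1`
or `-1`. Then `K₁ # K₂` and `K₁ # rK₂` are knots; the manifolds `M`, `N` obtained from them by surgery
with framing `f` are integral homology spheres (their fundamental groups are perfect); for every `n`,
two connected sums of `n` copies of `M` or `N` with different numbers of copies of `N` have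
non-isomorphic fundamental groups (so there are `n + 1` different ones); all the quantum `G` and `PG`
invariants of these connected sums agree, for every `G` and every `r`, and so do the images of their LMO
invariants under the weight systems of all simple Lie algebras. If the Kontsevich integral does not
distinguish `K₂` and `rK₂`, their LMO invariants are equal. -/
theorem result (w₁ w₂ : Braid 2) (h₁ : Inserted w₁) (h₂ : Inserted w₂) (f : ℤ)
    (hf : f = 1 ∨ f = -1) :
    (∀ c, IsKnot (sumWord w₁ w₂ c) ∧
      Subsingleton (Abelianization (pi1 (sumWord w₁ w₂ c) 2 f))) ∧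
    (∀ (n : ℕ) (c c' : Fin n → Bool),
      (Finset.univ.filter fun i => c i = true).card ≠
        (Finset.univ.filter fun i => c' i = true).card →
      IsEmpty (PiOneSum w₁ w₂ f c ≃* PiOneSum w₁ w₂ f c')) ∧
    (∀ (Δ : CartanDatum) (r n : ℕ) (c c' : Fin n → Bool),
      tauGSum Δ r w₁ w₂ f c = tauGSum Δ r w₁ w₂ f c' ∧
      tauPGSum Δ r w₁ w₂ f c = tauPGSum Δ r w₁ w₂ f c') ∧
    ∀ (L : LMOData) (n : ℕ) (c c' : Fin n → Bool),
      (∀ Δ, L.W Δ (L.Z w₁ w₂ f n c) = L.W Δ (L.Z w₁ w₂ f n c')) ∧
      (L.kon w₂ = L.kon w₂.reverse → L.Z w₁ w₂ f n c = L.Z w₁ w₂ f n c') := by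
  have hG : ∀ (Δ : CartanDatum) (r n : ℕ) (c c' : Fin n → Bool),
      tauGSum Δ r w₁ w₂ f c = tauGSum Δ r w₁ w₂ f c' := fun Δ r n c c' =>
    Finset.prod_congr rfl fun i _ => Pool.Agent.K3h45.LM.tauG_sum Δ r w₁ w₂ f (c i) (c' i)
  have hPG : ∀ (Δ : CartanDatum) (r n : ℕ) (c c' : Fin n → Bool),
      tauPGSum Δ r w₁ w₂ f c = tauPGSum Δ r w₁ w₂ f c' := fun Δ r n c c' =>
    Finset.prod_congr rfl fun i _ => Pool.Agent.K3h45.LM.tauPG_sum Δ r w₁ w₂ f (c i) (c' i)
  refine ⟨fun c => ⟨Pool.Agent.K3h45.LM.isKnot_sum (ins_of h₁) (ins_of h₂) c,
    Pool.Agent.K3h45.LM.ab_sum (ins_of h₁) (ins_of h₂) c f hf⟩,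
    fun n c c' hc => Pool.Agent.K3h45.LM.coprod_not_iso (ins_of h₁) (ins_of h₂) f hf c c' hc,
    fun Δ r n c c' => ⟨hG Δ r n c c', hPG Δ r n c c'⟩, fun L n c c' => ⟨fun Δ => ?_, fun hk => ?_⟩⟩
  · obtain ⟨F, hF⟩ := L.perturbative
    rw [hF Δ w₁ w₂ f n c h₁ h₂ hf, hF Δ w₁ w₂ f n c' h₁ h₂ hf]
    congr 1
    funext r
    exact hPG Δ r n c c'
  · obtain ⟨S, hS⟩ := L.surgery
    rw [hS w₁ w₂ f n c h₁ h₂ hf, hS w₁ w₂ f n c' h₁ h₂ hf]
    congr 1
    funext i
    have e : ∀ b : Bool, L.kon (if b then w₂.reverse else w₂) = L.kon w₂ := by
      intro b
      cases b
      · rfl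
      · exact hk.symm
    rw [e, e]

end Pool.Agent.Results.MP_27a3bb_gt.LieAlgebraPart
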