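import Mathlib
import Pool.Agent.K3h76.SB.Fin

/-!
# The LMO invariant separates the splices of two Brieskorn spheres which are links of singularities

By a theorem of Ohtsuki the LMO invariant of an integral homology sphere `M` determines its Ohtsuki
series `τ_M(h)` (the perturbative `SO(3)` invariant, `q = exp h`). Let `M` be the splice of the
Brieskorn spheres `Σ(a₁, a₂, α)` and `Σ(b₁, b₂, β)` along the fibres of orders `α` and `β`
(`{a₁, a₂, α}` pairwise coprime, `{b₁, b₂, β}` pairwise coprime, `a_i, b_j ≥ 2`, `α, β ≥ 1`) with
`α β > a₁ a₂ b₁ b₂`. By Eisenbud and Neumann these are exactly the integral homology spheres which are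
links of normal surface singularities with two nodes and four leaves in the splice diagram; they are
graph manifolds whose JSJ decomposition has two pieces, and they contain the links of all
`z ^ n = f(x, y)`, `f` irreducible with two Puiseux pairs, which are integral homology spheres (the
cyclic branched coverings of the 3-sphere along the algebraic knots with two Puiseux pairs), and the
manifolds obtained by surgery with coefficients `-1 / n`, `n > 0`, on these knots. Their Ohtsuki series
is (Gauss sum formula for plumbed integral homology spheres)

  `τ(h) = q ^ (-φ / 4) / (q ^ (1 / 2) - q ^ (-1 / 2)) * 2 *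
     ⟨sinh (x / a₁) sinh (x / a₂) / sinh x * sinh (y / b₁) sinh (y / b₂) / sinh y⟩`,

where `⟨ ⟩` is the formal Gaussian integral with the covariances `⟨x ^ 2⟩ = a₁ a₂ α h / 2`,
`⟨x y⟩ = a₁ a₂ b₁ b₂ h / 2`, `⟨y ^ 2⟩ = b₁ b₂ β h / 2` (half of the linking numbers of the fibres of the
two nodes, times `h`) and `φ` is a rational number; for the opposite orientation `h` is replaced by
`-h`. The definitions are in `Pool.Agent.K3h76.SB.Sphere` (`Piece`, `SplicedSphere`, `gaussSeries`,
`ohtsuki`) and `Pool.Agent.K3h76.SB.StmA` (`moment`, Isserlis' formula for the Gaussian moments).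
(For `Σ(2, 3, 7)` spliced with itself along the fibre of order `7` and `φ = -17 / 3` this gives
`1 - 12 (q - 1) + 198 (q - 1) ^ 2 - 3940 (q - 1) ^ 3 + …`.)

Theorem: the Ohtsuki series separate these manifolds, with both orientations, from each other, even
modulo multiplication with convergent power series, so that the numbers `φ` do not matter; and they
separate them from all Seifert fibred integral homology spheres (`SeifertSphere`, `ohtsuki` of
`Pool.Agent.K3h96.OS.Defs`).

Steps of the proof. (1) Let `L_x = a₁ a₂ α ≥ L_y = b₁ b₂ β`. The coefficients of the Gaussian integral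
have an asymptotic expansion to all orders in the scale `(2 k + 1)!! (L_x / 2 π ^ 2) ^ k`, given by the
pole of the integrand at `x = π i`; the coefficients of the expansion form the Gaussian integral `A(h)`
of the other factor, conditioned to `x = π i` (if `L_x = L_y` there is a second contribution of the same
kind). (2) The coefficients of `A` grow factorially and have themselves an asymptotic expansion, with
one term, given by the pole at `y = π i`. If two series agree up to a convergent factor, then so do
their `A`, and the second expansion shows that the factor is `1`. (3) So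
`Re (sin (π z / b₁) sin (π z / b₂) / sin (π z))`, `z = ρ + i √v s`, is determined up to a constant, as
a function of `s`, first near `0` and by analytic continuation for all real `s`. Its behaviour for
`s → ∞` gives `(1 - 1 / b₁ - 1 / b₂) √v` and `(1 - 1 / b₁ + 1 / b₂) √v` (`b₁ < b₂`); the quotient
`(b₁ b₂ - b₁ - b₂) / (b₁ b₂ + b₁ - b₂)` is in lowest terms and determines `b₁` and `b₂`, then the
coefficients give `ρ = b₁ b₂ / α` and `sin (π / a₁) sin (π / a₂)`, and with `L_x` and `v` all data.
-/

set_option autoImplicit false

namespace Pool.Agent.Results.MP_27a3bb_gt.SplicedBrieskornSpheres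

open Pool.Agent.K3h76.SB Pool.Agent.K3h96.OS

/-- Let `c` and `c'` be non-zero convergent power series and `φ`, `φ'` complex numbers.
(1) If `c τ_M = c' τ_M'` for two spliced spheres (with orientations) `M` and `M'`, then they are equal,
up to the order of the two Brieskorn spheres.
(2) `c τ_M ≠ c' τ_N` for every spliced sphere `M` and every Seifert fibred integral homology sphere `N`
with at least three exceptional fibres. -/
theorem result :
    (∀ (c c' : PowerSeries ℂ) (φ φ' : ℂ) (M M' : SplicedSphere), Conv c → Conv c' → c ≠ 0 → c' ≠ 0 →
      c * M.ohtsuki φ = c' * M'.ohtsuki φ' → M' = M ∨ M' = M.swap) ∧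
    (∀ (c c' : PowerSeries ℂ) (φ φ' : ℂ) (M : SplicedSphere) (N : SeifertSphere), Conv c → Conv c' →
      c ≠ 0 → c' ≠ 0 → c * M.ohtsuki φ ≠ c' * ohtsuki φ' N) :=
  ⟨fun _ _ φ φ' M M' hc hc' hc0 hc0' h => main1 bricks hc hc' hc0 hc0' φ φ' M M' h,
    fun _ _ φ φ' M N hc hc' hc0 hc0' => main2 bricks hc hc' hc0 hc0' φ φ' M N⟩

end Pool.Agent.Results.MP_27a3bb_gt.SplicedBrieskornSpheres
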