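import Mathlib
import Pool.Agent.K3h96.OS.Conv

/-!
# The LMO invariant separates the connected sums of Seifert fibred integral homology spheres

By a theorem of Ohtsuki the LMO invariant of an integral homology sphere `M` determines its Ohtsuki
series `τ_M(h)` (the perturbative `SO(3)` invariant, `q = exp h`); it is multiplicative for connected
sums. Every Seifert fibred integral homology sphere is `S³` or, with one of its two orientations, a
manifold `Σ(a_1, …, a_n)` with `n ≥ 3` exceptional fibres of pairwise coprime orders `a_i ≥ 2`. With
`P = a_1 ⋯ a_n`, the theorem of Lawrence and Rozansky says

  `τ(h) = q ^ (-φ / 4) / (q ^ (1 / 2) - q ^ (-1 / 2)) * 2 * ⟨∏ sinh (y / a_i) / sinh y ^ (n - 2)⟩`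

where `⟨ ⟩` is the formal Gaussian integral of variance `P h / 2` and `φ` is a rational number
(for `Σ(2,3,5)` and `φ = 6 + 1/30` this is `1 - 6 (q - 1) + 45 (q - 1) ^ 2 - 464 (q - 1) ^ 3 + …`); for
the opposite orientation `h` is replaced by `-h`. The definitions are in `Pool.Agent.K3h96.OS.Defs`.

Theorem: the Ohtsuki series of the Seifert fibred integral homology spheres, with both orientations,
are multiplicatively independent, also modulo the power series whose coefficients grow more slowly
than `k! (30 / π ^ 2) ^ k`, for instance the convergent ones; hence the values of the numbers `φ` do
not matter. In particular two connected sums of Seifert fibred integral homology spheres, with any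
number of summands and any orientations, have the same LMO invariant only if they are homeomorphic.

Steps of the proof. (1) In the ring of the power series with factorially divergent coefficients
(Bender, Borinsky) the map which assigns to a series the asymptotic expansion of its coefficients,
for the fastest growth in question and for one of the two possible signs, is a derivation (the alien
derivative). (2) The Gaussian integral of `Σ(a_1, …, a_n)` has a polynomial alien derivative `p`,
given by the pole of the integrand at `y = π i`, where `sinh y` has its first zero; it sees only the
manifolds with the largest product `P` and with one orientation. (3) Hence a multiplicative relation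
`∏ g_i ^ e_i = ∏ g_i ^ f_i` implies the identity `∏ (g_i + s p_i) ^ e_i = ∏ (g_i + s p_i) ^ f_i` of
polynomials in a new variable `s`, and it remains to show that the quotients `p_i / g_i` are
different. (4) The coefficients of the `g_i` are rational, those of the `p_i` are Laurent polynomials
in `π` with algebraic coefficients, and the term of highest degree in `π` occurs only in the lowest
coefficient of `p_i`. As `π` is transcendental, `p_i / g_i = p_j / g_j` would imply `g_i = g_j`, hence
`∏ sinh (y / a_l) = ∏ sinh (y / b_l)`, and the zeros determine the pairwise coprime orders.
-/

set_option autoImplicit false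

namespace Pool.Agent.Results.MP_27a3bb_gt.SumsOfSeifertSpheres

open Pool.Agent.K3h96.OS

/-- Let `A` and `B` be finite families of oriented Seifert fibred integral homology spheres with at
least three exceptional fibres, and `c`, `c'` non-zero power series with slowly growing coefficients.
If `c ∏_{M ∈ A} τ_M = c' ∏_{M ∈ B} τ_M`, then `A = B` and `c = c'`. -/
theorem result (φ : SeifertSphere → ℂ) (A B : Multiset SeifertSphere) (c c' : PowerSeries ℂ)
    (hc : Slow c) (hc' : Slow c') (hc0 : c ≠ 0) (hc0' : c' ≠ 0)
    (h : c * (A.map fun M => ohtsuki (φ M) M).prod = c' * (B.map fun M => ohtsuki (φ M) M).prod) :
    A = B ∧ c = c' :=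
  main φ A B c c' hc hc' hc0 hc0' h

end Pool.Agent.Results.MP_27a3bb_gt.SumsOfSeifertSpheres
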